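import Pool.Agent.H42K.Def

/-! From configurations to triangles in Euclidean space. -/

set_option autoImplicit false

namespace Pool.Agent.H42K

/-- Euclidean three-space. -/
abbrev E3 : Type := EuclideanSpace ℝ (Fin 3)

/-- `t` is the vertex set of a triangle spanned by `P`: three non-collinear points of `P`. -/
def IsTriangle (P t : Finset E3) : Prop :=
  t ⊆ P ∧ t.card = 3 ∧ ¬ Collinear ℝ (t : Set E3)

/-- The closed triangle with vertex set `t`: its convex hull. -/
def tri (t : Finset E3) : Set E3 := convexHull ℝ (t : Set E3)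

/-- Two triangles are disjoint, or meet in exactly one point, which is a vertex of both. -/
def AlmostDisjoint (s t : Finset E3) : Prop :=
  Disjoint (tri s) (tri t) ∨ ∃ v, v ∈ s ∧ v ∈ t ∧ tri s ∩ tri t = {v}

/-- `F` is an almost disjoint family of triangles spanned by `P`
(a triangle is recorded by its set of vertices). -/
def IsAlmostDisjointFamily (P : Finset E3) (F : Finset (Finset E3)) : Prop :=
  (∀ t ∈ F, IsTriangle P t) ∧ ∀ s ∈ F, ∀ t ∈ F, s ≠ t → AlmostDisjoint s t

/-- The set of sizes of almost disjoint families of triangles spanned by `n` points of space. -/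
def sizes (n : ℕ) : Set ℕ :=
  {k | ∃ P : Finset E3, P.card = n ∧
    ∃ F : Finset (Finset E3), IsAlmostDisjointFamily P F ∧ F.card = k}

/-- `T n`: the largest size of an almost disjoint family of triangles spanned by `n` points. -/
noncomputable def T (n : ℕ) : ℕ := sSup (sizes n)

/-! ### Auxiliary definitions -/

/-- the linear part of the affine function of a form -/
noncomputable def geoLin (f : Pt) : E3 →ₗ[ℝ] ℝ where
  toFun z := f.x * z 0 + f.y * z 1 + f.w * z 2
  map_add' a b := by simp only [PiLp.add_apply]; ring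
  map_smul' c a := by simp only [PiLp.smul_apply, smul_eq_mul, RingHom.id_apply]; ring

/-- the point of space with homogeneous coordinates `P k` -/
noncomputable def geoPt (P : ℕ → Pt) (k : ℕ) : E3 :=
  !₂[(P k).x / (P k).h, (P k).y / (P k).h, (P k).w / (P k).h]

lemma geoLin_geoPt (f : Pt) (P : ℕ → Pt) {k : ℕ} (hk : 0 < (P k).h) :
    geoLin f (geoPt P k) + f.h = ap f (P k) / (P k).h := by
  have h0 : (geoPt P k) 0 = (P k).x / (P k).h := rfl
  have h1 : (geoPt P k) 1 = (P k).y / (P k).h := rfl
  have h2 : (geoPt P k) 2 = (P k).w / (P k).h := rfl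
  show f.x * (geoPt P k) 0 + f.y * (geoPt P k) 1 + f.w * (geoPt P k) 2 + f.h = _
  rw [h0, h1, h2, ap]
  field_simp

/-- A point of a polytope on which a nonnegative affine function is `≤ 0` is the only vertex
on which the function vanishes. -/
lemma geo_face {s : Finset E3} (φ : E3 →ₗ[ℝ] ℝ) (c : ℝ) (h0 : ∀ v ∈ s, 0 ≤ φ v + c)
    {x : E3} (hx : x ∈ convexHull ℝ (s : Set E3)) (hxc : φ x + c ≤ 0) (z : E3)
    (hz : ∀ v ∈ s, φ v + c = 0 → v = z) : x = z ∧ z ∈ s := by
  rw [Finset.mem_convexHull'] at hx
  obtain ⟨w, hw0, hw1, hwx⟩ := hx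
  have hsum : ∑ v ∈ s, w v * (φ v + c) = φ x + c := by
    have e1 : ∑ v ∈ s, w v * (φ v + c) = ∑ v ∈ s, (w v * φ v + w v * c) := by
      apply Finset.sum_congr rfl; intro v _; ring
    rw [e1, Finset.sum_add_distrib, ← Finset.sum_mul, hw1, one_mul, ← hwx, map_sum]
    congr 1
    apply Finset.sum_congr rfl
    intro v _
    rw [map_smul, smul_eq_mul]
  have hnn : ∀ v ∈ s, 0 ≤ w v * (φ v + c) := fun v hv => mul_nonneg (hw0 v hv) (h0 v hv)
  have hz0 : ∑ v ∈ s, w v * (φ v + c) = 0 :=
    le_antisymm (by rw [hsum]; exact hxc) (Finset.sum_nonneg hnn)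
  have hall := (Finset.sum_eq_zero_iff_of_nonneg hnn).1 hz0
  have hor : ∀ v ∈ s, w v = 0 ∨ v = z := by
    intro v hv
    rcases mul_eq_zero.1 (hall v hv) with h | h
    · exact Or.inl h
    · exact Or.inr (hz v hv h)
  refine ⟨?_, ?_⟩
  · have e2 : ∑ v ∈ s, w v • v = ∑ v ∈ s, w v • z := by
      apply Finset.sum_congr rfl
      intro v hv
      rcases hor v hv with h | h
      · rw [h, zero_smul, zero_smul]
      · rw [h]
    rw [← hwx, e2, ← Finset.sum_smul, hw1, one_smul]
  · by_contra hzs
    have : ∑ v ∈ s, w v = 0 := by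
      apply Finset.sum_eq_zero
      intro v hv
      rcases hor v hv with h | h
      · exact h
      · exact absurd (h ▸ hv) hzs
    rw [hw1] at this
    exact one_ne_zero this

/-- a point with a weak betweenness relation has not a smaller value -/
lemma geo_wbtw {a b c : E3} (h : Wbtw ℝ a b c) (φ : E3 →ₗ[ℝ] ℝ) (d : ℝ)
    (ha : 0 < φ a + d) (hc : 0 < φ c + d) : 0 < φ b + d := by
  obtain ⟨t, ⟨ht0, ht1⟩, rfl⟩ := h
  rw [AffineMap.lineMap_apply_module, map_add, map_smul, map_smul, smul_eq_mul, smul_eq_mul]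
  have : (1 - t) * φ a + t * φ c + d = (1 - t) * (φ a + d) + t * (φ c + d) := by ring
  rw [this]
  rcases eq_or_lt_of_le ht0 with h | h
  · rw [← h]; simpa using ha
  · have h1 : 0 ≤ (1 - t) * (φ a + d) := mul_nonneg (by linarith) ha.le
    have h2 : 0 < t * (φ c + d) := mul_pos h hc
    linarith

lemma geo_sizes_bddAbove (n : ℕ) : BddAbove (sizes n) := by
  refine ⟨2 ^ n, ?_⟩
  rintro k ⟨P, hP, F, hF, rfl⟩
  have : F ⊆ P.powerset := fun t ht => Finset.mem_powerset.2 (hF.1 t ht).1
  calc F.card ≤ P.powerset.card := Finset.card_le_card this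
    _ = 2 ^ n := by rw [Finset.card_powerset, hP]

/-- every configuration gives an almost disjoint family of triangles
(points `(x/h, y/h, w/h)`; distinct by `lo`, `hi` as `M ^ 2 ≥ 4`; a triangle of `F` is not collinear by `vis`
at its own vertices: the middle of three collinear points can not be strictly lower than the
other two for an affine function; two triangles: `sep` and `inter`) -/
theorem Cfg.mem_sizes {M : ℝ} {n : ℕ} {P : ℕ → Pt} {F : Finset (Finset ℕ)} (hM : 2 ≤ M)
    (h : Cfg M n P F) : F.card ∈ sizes n := by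
  classical
  -- injectivity
  have hlt : ∀ k l, k < l → l < n → geoPt P k 1 < geoPt P l 1 := by
    intro k l hkl hln
    have hk := h.pos k (hkl.trans hln)
    have hl := h.pos l hln
    have h1 : geoPt P k 1 < 2 * M ^ (2 * k) := by
      show (P k).y / (P k).h < _
      rw [div_lt_iff₀ hk]
      exact h.hi k (hkl.trans hln)
    have h2 : M ^ (2 * l) / 2 < geoPt P l 1 := by
      show _ < (P l).y / (P l).h
      rw [lt_div_iff₀ hl]
      have := h.lo l hln
      linarith
    have h3 : M ^ (2 * k + 2) ≤ M ^ (2 * l) := pow_le_pow_right₀ (by linarith) (by omega)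
    have h4 : M ^ (2 * k + 2) = M ^ (2 * k) * M ^ 2 := pow_add _ _ _
    have h5 : 0 < M ^ (2 * k) := by positivity
    have h6 : (4 : ℝ) ≤ M ^ 2 := by nlinarith
    have h7 : M ^ (2 * k) * 4 ≤ M ^ (2 * k) * M ^ 2 := mul_le_mul_of_nonneg_left h6 h5.le
    linarith
  have hinj : ∀ k < n, ∀ l < n, geoPt P k = geoPt P l → k = l := by
    intro k hk l hl e
    rcases lt_trichotomy k l with h1 | h1 | h1
    · exact absurd (congrArg (fun z : E3 => z 1) e) (hlt k l h1 hl).ne
    · exact h1
    · exact absurd (congrArg (fun z : E3 => z 1) e) (hlt l k h1 hk).ne'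
  have hinjS : ∀ S ∈ F, Set.InjOn (geoPt P) (S : Set ℕ) := by
    intro S hS a ha b hb e
    exact hinj a (Finset.mem_range.1 (h.sub S hS ha)) b (Finset.mem_range.1 (h.sub S hS hb)) e
  refine ⟨(Finset.range n).image (geoPt P), ?_, F.image (fun S => S.image (geoPt P)), ⟨?_, ?_⟩, ?_⟩
  · rw [Finset.card_image_of_injOn, Finset.card_range]
    intro a ha b hb e
    exact hinj a (by simpa using ha) b (by simpa using hb) e
  · -- triangles
    intro t ht
    obtain ⟨S, hS, rfl⟩ := Finset.mem_image.1 ht
    refine ⟨Finset.image_subset_image (h.sub S hS), ?_, ?_⟩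
    · rw [Finset.card_image_of_injOn (hinjS S hS), h.card S hS]
    · obtain ⟨a, b, c, hab, hac, hbc, rfl⟩ := Finset.card_eq_three.1 (h.card S hS)
      have hmem : ∀ k ∈ ({a, b, c} : Finset ℕ), k < n := fun k hk =>
        Finset.mem_range.1 (h.sub _ hS hk)
      have haS : a ∈ ({a, b, c} : Finset ℕ) := by simp
      have hbS : b ∈ ({a, b, c} : Finset ℕ) := by simp
      have hcS : c ∈ ({a, b, c} : Finset ℕ) := by simp
      intro hcol
      have hcol' : Collinear ℝ ({geoPt P a, geoPt P b, geoPt P c} : Set E3) := by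
        simpa using hcol
      -- the middle one
      have key : ∀ x y z : ℕ, x ∈ ({a, b, c} : Finset ℕ) → y ∈ ({a, b, c} : Finset ℕ) →
          z ∈ ({a, b, c} : Finset ℕ) → x ≠ y → z ≠ y →
          ¬ Wbtw ℝ (geoPt P x) (geoPt P y) (geoPt P z) := by
        intro x y z hx hy hz hxy hzy hw
        obtain ⟨f, -, f0, f1⟩ := h.vis y (hmem y hy) _ hS
        have hx' := f1 x hx hxy
        have hz' := f1 z hz hzy
        have e1 := geoLin_geoPt f P (h.pos x (hmem x hx))
        have e2 := geoLin_geoPt f P (h.pos y (hmem y hy))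
        have e3 := geoLin_geoPt f P (h.pos z (hmem z hz))
        have q1 : 0 < geoLin f (geoPt P x) + f.h := by
          rw [e1]; exact div_pos hx' (h.pos x (hmem x hx))
        have q3 : 0 < geoLin f (geoPt P z) + f.h := by
          rw [e3]; exact div_pos hz' (h.pos z (hmem z hz))
        have q2 := geo_wbtw hw (geoLin f) f.h q1 q3
        rw [e2, f0, zero_div] at q2
        exact lt_irrefl _ q2
      rcases hcol'.wbtw_or_wbtw_or_wbtw with hw | hw | hw
      · exact key a b c haS hbS hcS hab hbc.symm hw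
      · exact key b c a hbS hcS haS hbc hac hw
      · exact key c a b hcS haS hbS hac.symm hab.symm hw
  · -- two triangles
    intro s hs t ht hst
    obtain ⟨S, hS, rfl⟩ := Finset.mem_image.1 hs
    obtain ⟨T', hT, rfl⟩ := Finset.mem_image.1 ht
    have hne : S ≠ T' := fun e => hst (by rw [e])
    have hSn : ∀ k ∈ S, k < n := fun k hk => Finset.mem_range.1 (h.sub S hS hk)
    have hTn : ∀ k ∈ T', k < n := fun k hk => Finset.mem_range.1 (h.sub T' hT hk)
    obtain ⟨f, fS, fT, f0⟩ := h.sep S hS T' hT hne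
    have hcard := h.inter S hS T' hT hne
    have hz : ∃ z : E3, ∀ k, k ∈ S → k ∈ T' → geoPt P k = z := by
      rcases Nat.eq_zero_or_pos (S ∩ T').card with h0 | h0
      · refine ⟨0, fun k h1 h2 => ?_⟩
        rw [Finset.card_eq_zero] at h0
        have : k ∈ S ∩ T' := Finset.mem_inter.2 ⟨h1, h2⟩
        rw [h0] at this
        exact absurd this (Finset.notMem_empty k)
      · obtain ⟨m, hm⟩ := Finset.card_pos.1 h0
        refine ⟨geoPt P m, fun k h1 h2 => ?_⟩
        have hk : k ∈ S ∩ T' := Finset.mem_inter.2 ⟨h1, h2⟩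
        rw [Finset.card_le_one.1 hcard k hk m hm]
    obtain ⟨z, hz⟩ := hz
    -- values
    have vS : ∀ k ∈ S, 0 ≤ geoLin f (geoPt P k) + f.h := by
      intro k hk
      rw [geoLin_geoPt f P (h.pos k (hSn k hk))]
      by_cases hkT : k ∈ T'
      · rw [f0 k hk hkT, zero_div]
      · exact (div_pos (fS k hk hkT) (h.pos k (hSn k hk))).le
    have vT : ∀ k ∈ T', geoLin f (geoPt P k) + f.h ≤ 0 := by
      intro k hk
      rw [geoLin_geoPt f P (h.pos k (hTn k hk))]
      by_cases hkS : k ∈ S
      · rw [f0 k hkS hk, zero_div]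
      · exact (div_neg_of_neg_of_pos (fT k hk hkS) (h.pos k (hTn k hk))).le
    have zS : ∀ k ∈ S, geoLin f (geoPt P k) + f.h = 0 → geoPt P k = z := by
      intro k hk e
      by_cases hkT : k ∈ T'
      · exact hz k hk hkT
      · exfalso
        rw [geoLin_geoPt f P (h.pos k (hSn k hk))] at e
        exact (div_pos (fS k hk hkT) (h.pos k (hSn k hk))).ne' e
    have zT : ∀ k ∈ T', geoLin f (geoPt P k) + f.h = 0 → geoPt P k = z := by
      intro k hk e
      by_cases hkS : k ∈ S
      · exact hz k hkS hk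
      · exfalso
        rw [geoLin_geoPt f P (h.pos k (hTn k hk))] at e
        exact (div_neg_of_neg_of_pos (fT k hk hkS) (h.pos k (hTn k hk))).ne e
    -- sign of the function on the hulls
    have signS : ∀ x ∈ tri (S.image (geoPt P)), 0 ≤ geoLin f x + f.h := by
      intro x hx
      unfold tri at hx
      rw [Finset.mem_convexHull'] at hx
      obtain ⟨w, hw0, hw1, rfl⟩ := hx
      have e1 : geoLin f (∑ v ∈ S.image (geoPt P), w v • v) + f.h =
          ∑ v ∈ S.image (geoPt P), w v * (geoLin f v + f.h) := by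
        have e2 : ∑ v ∈ S.image (geoPt P), w v * (geoLin f v + f.h) =
            ∑ v ∈ S.image (geoPt P), (w v * geoLin f v + w v * f.h) := by
          apply Finset.sum_congr rfl; intro v _; ring
        rw [e2, Finset.sum_add_distrib, ← Finset.sum_mul, hw1, one_mul, map_sum]
        congr 1
        apply Finset.sum_congr rfl
        intro v _
        rw [map_smul, smul_eq_mul]
      rw [e1]
      apply Finset.sum_nonneg
      intro v hv
      obtain ⟨k, hk, rfl⟩ := Finset.mem_image.1 hv
      exact mul_nonneg (hw0 _ hv) (vS k hk)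
    have signT : ∀ x ∈ tri (T'.image (geoPt P)), geoLin f x + f.h ≤ 0 := by
      intro x hx
      unfold tri at hx
      rw [Finset.mem_convexHull'] at hx
      obtain ⟨w, hw0, hw1, rfl⟩ := hx
      have e1 : geoLin f (∑ v ∈ T'.image (geoPt P), w v • v) + f.h =
          ∑ v ∈ T'.image (geoPt P), w v * (geoLin f v + f.h) := by
        have e2 : ∑ v ∈ T'.image (geoPt P), w v * (geoLin f v + f.h) =
            ∑ v ∈ T'.image (geoPt P), (w v * geoLin f v + w v * f.h) := by
          apply Finset.sum_congr rfl; intro v _; ring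
        rw [e2, Finset.sum_add_distrib, ← Finset.sum_mul, hw1, one_mul, map_sum]
        congr 1
        apply Finset.sum_congr rfl
        intro v _
        rw [map_smul, smul_eq_mul]
      rw [e1]
      apply Finset.sum_nonpos
      intro v hv
      obtain ⟨k, hk, rfl⟩ := Finset.mem_image.1 hv
      exact mul_nonpos_of_nonneg_of_nonpos (hw0 _ hv) (vT k hk)
    have main : ∀ x, x ∈ tri (S.image (geoPt P)) → x ∈ tri (T'.image (geoPt P)) →
        x = z ∧ z ∈ S.image (geoPt P) ∧ z ∈ T'.image (geoPt P) := by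
      intro x hxS hxT
      have h1 := signS x hxS
      have h2 := signT x hxT
      have r1 := geo_face (s := S.image (geoPt P)) (geoLin f) f.h
        (fun v hv => by
          obtain ⟨k, hk, rfl⟩ := Finset.mem_image.1 hv
          exact vS k hk) hxS h2 z
        (fun v hv => by
          obtain ⟨k, hk, rfl⟩ := Finset.mem_image.1 hv
          exact zS k hk)
      have r2 := geo_face (s := T'.image (geoPt P)) (-(geoLin f)) (-f.h)
        (fun v hv => by
          obtain ⟨k, hk, rfl⟩ := Finset.mem_image.1 hv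
          have := vT k hk
          rw [LinearMap.neg_apply]
          linarith) hxT (by rw [LinearMap.neg_apply]; linarith) z
        (fun v hv e => by
          obtain ⟨k, hk, rfl⟩ := Finset.mem_image.1 hv
          rw [LinearMap.neg_apply] at e
          exact zT k hk (by linarith))
      exact ⟨r1.1, r1.2, r2.2⟩
    by_cases hd : Disjoint (tri (S.image (geoPt P))) (tri (T'.image (geoPt P)))
    · exact Or.inl hd
    · right
      rw [Set.not_disjoint_iff] at hd
      obtain ⟨v, hvs, hvt⟩ := hd
      obtain ⟨e, hzS, hzT⟩ := main v hvs hvt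
      refine ⟨z, hzS, hzT, ?_⟩
      rw [e] at hvs hvt
      exact Set.eq_singleton_iff_unique_mem.2 ⟨⟨hvs, hvt⟩, fun y hy => (main y hy.1 hy.2).1⟩
  · rw [Finset.card_image_of_injOn]
    intro S hS T' hT e
    have hS' : S ∈ F := hS
    have hT' : T' ∈ F := hT
    have e' : S.image (geoPt P) = T'.image (geoPt P) := e
    ext k
    constructor
    · intro hk
      have : geoPt P k ∈ T'.image (geoPt P) := e' ▸ Finset.mem_image_of_mem _ hk
      obtain ⟨l, hl, hlk⟩ := Finset.mem_image.1 this
      have := hinj l (Finset.mem_range.1 (h.sub T' hT' hl)) k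
        (Finset.mem_range.1 (h.sub S hS' hk)) hlk
      exact this ▸ hl
    · intro hk
      have : geoPt P k ∈ S.image (geoPt P) := e' ▸ Finset.mem_image_of_mem _ hk
      obtain ⟨l, hl, hlk⟩ := Finset.mem_image.1 this
      have := hinj l (Finset.mem_range.1 (h.sub S hS' hl)) k
        (Finset.mem_range.1 (h.sub T' hT' hk)) hlk
      exact this ▸ hl

theorem Cfg.le_T {M : ℝ} {n : ℕ} {P : ℕ → Pt} {F : Finset (Finset ℕ)} (hM : 2 ≤ M)
    (h : Cfg M n P F) : F.card ≤ T n :=
  le_csSup (geo_sizes_bddAbove n) (h.mem_sizes hM)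

end Pool.Agent.H42K
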