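import Pool.Agent.H42K.Def

/-! The recursion bound. -/

set_option autoImplicit false

namespace Pool.Agent.H42K

namespace ArithB

lemma cnt_eq (m v : ℕ) : cnt m v = ∑ j ∈ Finset.range m, min j (v + 1 - j) := by
  unfold cnt
  rw [Finset.card_filter, Finset.sum_product_right]
  refine Finset.sum_congr rfl fun j hj => ?_
  rw [← Finset.card_filter]
  have hj' := Finset.mem_range.1 hj
  have : (Finset.range m).filter (fun i => i < j ∧ i + j ≤ v) =
      Finset.range (min j (v + 1 - j)) := by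
    ext i
    simp only [Finset.mem_filter, Finset.mem_range]
    omega
  rw [this, Finset.card_range]

lemma cnt_succ (m v : ℕ) : cnt (m + 1) v = cnt m v + min m (v + 1 - m) := by
  rw [cnt_eq, cnt_eq, Finset.sum_range_succ]

lemma cnt_small (v m : ℕ) (h : 2 * m ≤ v + 3) : 2 * (cnt m v : ℤ) = m * ((m : ℤ) - 1) := by
  induction m with
  | zero => rw [cnt_eq]; simp
  | succ m ih =>
    rw [cnt_succ]
    have h1 : min m (v + 1 - m) = m := by omega
    rw [h1]
    have h2 := ih (by omega)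
    push_cast
    linarith

lemma cnt_ge (v m : ℕ) (h1 : v + 2 ≤ 2 * m) (h2 : m ≤ v + 2) :
    2 * (m : ℤ) * (m - 1) ≤ 4 * (cnt m v : ℤ) + (2 * m - 2 - v) ^ 2 := by
  induction m with
  | zero => omega
  | succ m ih =>
    by_cases hm : v + 2 ≤ 2 * m
    · have h3 := ih hm (by omega)
      rw [cnt_succ]
      have h4 : min m (v + 1 - m) = v + 1 - m := by omega
      rw [h4]
      have h5 : ((v + 1 - m : ℕ) : ℤ) = v + 1 - m := by omega
      push_cast
      rw [h5]
      nlinarith
    · have h3 := cnt_small v (m + 1) (by omega)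
      have h4 : 0 ≤ (2 * ((m + 1 : ℕ) : ℤ) - 2 - v) ^ 2 := sq_nonneg _
      push_cast at h3 h4 ⊢
      linarith

/-- the number of new points -/
def mf (n : ℕ) : ℕ := (82 * n + 277) / 210

lemma mf_lt (n : ℕ) : 210 * mf n ≤ 82 * n + 277 ∧ 82 * n + 277 < 210 * mf n + 210 := by
  unfold mf
  omega

/-- the recursion -/
def R : ℕ → ℕ
  | 0 => 0
  | 1 => 0
  | 2 => 0
  | 3 => 1
  | 4 => 1
  | 5 => 2
  | 6 => 4
  | 7 => 5
  | n + 8 => R (n + 8 - mf (n + 8)) + cnt (mf (n + 8)) (n + 8 - mf (n + 8))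
termination_by n => n
decreasing_by
  have := mf_lt (n + 8)
  omega

lemma R_rec (n : ℕ) (hn : 8 ≤ n) : R n = R (n - mf n) + cnt (mf n) (n - mf n) := by
  obtain ⟨k, rfl⟩ : ∃ k, n = k + 8 := ⟨n - 8, by omega⟩
  rw [R]

lemma R_bound (n : ℕ) (hn : n ≠ 2) : 7 * n ^ 2 ≤ 64 * R n + 12 * n := by
  induction n using Nat.strong_induction_on with
  | _ n ih =>
    rcases Nat.lt_or_ge n 8 with h8 | h8
    · interval_cases n
      · simp [R]
      · simp [R]
      · exact absurd rfl hn
      · simp [R]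
      · simp [R]
      · simp [R]
      · simp [R]
      · simp [R]
    · rw [R_rec n h8]
      obtain ⟨h1, h2⟩ := mf_lt n
      obtain ⟨m, hm⟩ : ∃ m, m = mf n := ⟨_, rfl⟩
      rw [← hm] at h1 h2 ⊢
      obtain ⟨v, hv⟩ : ∃ v, v = n - m := ⟨_, rfl⟩
      rw [← hv]
      have hn' : n = m + v := by omega
      have h3 := ih v (by omega) (by omega)
      have h4 := cnt_ge v m (by omega) (by omega)
      have h5 : 7 * (v : ℤ) ^ 2 ≤ 64 * R v + 12 * v := by exact_mod_cast h3
      have h6 : 7 * (n : ℤ) ^ 2 ≤ 64 * ((R v : ℤ) + cnt m v) + 12 * n := by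
        have ha : 210 * (m : ℤ) ≤ 82 * n + 277 := by exact_mod_cast h1
        have hb : 82 * (n : ℤ) + 277 < 210 * m + 210 := by exact_mod_cast h2
        have hc : (n : ℤ) = m + v := by exact_mod_cast hn'
        have hd : (8 : ℤ) ≤ n := by exact_mod_cast h8
        -- t = 210 m - (82 n + 172), |t| ≤ 105
        have ht : (210 * (m : ℤ) - (82 * n + 172)) ^ 2 ≤ 105 ^ 2 := by
          apply sq_le_sq'
          · linarith
          · linarith
        have hkey : 0 ≤ 420 * (-105 * (m : ℤ) ^ 2 + (82 * n + 172) * m - 16 * (n + 2) ^ 2) := by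
          have : 420 * (-105 * (m : ℤ) ^ 2 + (82 * n + 172) * m - 16 * (n + 2) ^ 2) =
              4 * (n : ℤ) ^ 2 + 1328 * n + 2704 - (210 * (m : ℤ) - (82 * n + 172)) ^ 2 := by ring
          rw [this]
          nlinarith
        have hv' : (v : ℤ) = n - m := by linarith
        rw [hv'] at h4 h5
        nlinarith
      exact_mod_cast h6

end ArithB

/-- there is a sequence `R` with the recursion and `64 * R n ≥ 7 * n ^ 2 - 12 * n` for all `n ≠ 2` -/
theorem exists_R : ∃ R : ℕ → ℕ,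
    (∀ n, R n = 0 ∨ ∃ m v, 2 ≤ m ∧ m + v = n ∧ R n ≤ R v + cnt m v) ∧
    (∀ n, n ≠ 2 → 7 * n ^ 2 ≤ 64 * R n + 12 * n) := by
  refine ⟨ArithB.R, ?_, ArithB.R_bound⟩
  intro n
  rcases Nat.lt_or_ge n 8 with h8 | h8
  · interval_cases n
    · left; simp [ArithB.R]
    · left; simp [ArithB.R]
    · left; simp [ArithB.R]
    · right; exact ⟨2, 1, le_rfl, rfl, by simp only [ArithB.R]; decide⟩
    · right; exact ⟨2, 2, le_rfl, rfl, by simp only [ArithB.R]; decide⟩
    · right; exact ⟨2, 3, le_rfl, rfl, by simp only [ArithB.R]; decide⟩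
    · right; exact ⟨3, 3, by norm_num, rfl, by simp only [ArithB.R]; decide⟩
    · right; exact ⟨4, 3, by norm_num, rfl, by simp only [ArithB.R]; decide⟩
  · right
    have h := ArithB.mf_lt n
    exact ⟨ArithB.mf n, n - ArithB.mf n, by omega, by omega, le_of_eq (ArithB.R_rec n h8)⟩

end Pool.Agent.H42K
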