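import Mathlib

/-! Chords of `U - l V`. -/

set_option autoImplicit false

namespace Pool.Agent.H42K

/-- `U M x = M ^ (2 x)`. -/
noncomputable def U (M : ℝ) (x : ℕ) : ℝ := M ^ (2 * x)

/-- `V M x = M ^ (- 2 x)`. -/
noncomputable def V (M : ℝ) (x : ℕ) : ℝ := (M ^ (2 * x))⁻¹

/-- `lam M L = M ^ (2 L + 1)`. -/
noncomputable def lam (M : ℝ) (L : ℕ) : ℝ := M ^ (2 * L + 1)

/-- `g M l x = U x - l * V x`. -/
noncomputable def g (M l : ℝ) (x : ℕ) : ℝ := U M x - l * V M x

lemma key_pow {M : ℝ} {a b : ℕ} (ha : 1 ≤ a) (hM : 2 * ((a : ℝ) + b) ≤ M) (hM1 : 1 ≤ M) :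
    ((a : ℝ) + b) * M ^ (2 * b) ≤ M ^ (2 * (a + b)) / 2 := by
  have h1 : M ^ (2 * (a + b)) = M ^ (2 * b) * M ^ (2 * a) := by rw [← pow_add]; congr 1; ring
  have h2 : M ≤ M ^ (2 * a) := by
    calc M = M ^ 1 := (pow_one M).symm
      _ ≤ M ^ (2 * a) := pow_le_pow_right₀ hM1 (by omega)
  have h3 : 0 ≤ M ^ (2 * b) := by positivity
  rw [h1]
  nlinarith

/-- Above the threshold the chord over `(i, i + a + b)` lies below the graph of `g`. -/
lemma chord_lt {M l : ℝ} {i a b : ℕ} (ha : 1 ≤ a) (hb : 1 ≤ b)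
    (hM : 16 * ((a : ℝ) + b) ≤ M) (hl : lam M (i + (i + a + b)) ≤ 2 * l) :
    (b : ℝ) * g M l i + a * g M l (i + a + b) < ((a : ℝ) + b) * g M l (i + a) := by
  have haR : (1 : ℝ) ≤ a := by exact_mod_cast ha
  have hbR : (1 : ℝ) ≤ b := by exact_mod_cast hb
  have hM1 : 1 ≤ M := by linarith
  have hM0 : 0 < M := by linarith
  have k1 := key_pow (M := M) (a := a) (b := b) ha (by linarith) hM1
  -- U part
  set X := M ^ (2 * i) with hX
  have hX0 : 0 < X := by positivity
  set A := M ^ (2 * a) with hA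
  have hA1 : 1 ≤ A := one_le_pow₀ hM1
  set B := M ^ (2 * b) with hB
  have hB1 : 1 ≤ B := one_le_pow₀ hM1
  have hUi : U M i = X := rfl
  have hUx : U M (i + a) = X * A := by unfold U; rw [hX, hA, ← pow_add]; congr 1; ring
  have hUj : U M (i + a + b) = X * A * B := by
    unfold U; rw [hX, hA, hB, ← pow_add, ← pow_add]; congr 1; ring
  have hVi : V M i = X⁻¹ := rfl
  have hVx : V M (i + a) = (X * A)⁻¹ := by rw [← hUx]; rfl
  have hVj : V M (i + a + b) = (X * A * B)⁻¹ := by rw [← hUj]; rfl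
  have hAB : M ^ (2 * (a + b)) = A * B := by rw [hA, hB, ← pow_add]; congr 1; ring
  rw [hAB] at k1
  have hlam : lam M (i + (i + a + b)) = M * (X * X * A * B) := by
    unfold lam; rw [hX, hA, hB, ← pow_add, ← pow_add, ← pow_add, ← pow_succ']; congr 1; ring
  -- V part positivity
  have hVpart : (b : ℝ) * V M i + a * V M (i + a + b) - ((a : ℝ) + b) * V M (i + a) =
      ((b : ℝ) * (A * B) + a - ((a : ℝ) + b) * B) / (X * A * B) := by
    rw [hVi, hVx, hVj]; field_simp
  have hXAB : 0 < X * A * B := by positivity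
  have hnum : A * B / 2 ≤ (b : ℝ) * (A * B) + a - ((a : ℝ) + b) * B := by nlinarith
  have hVpos : 0 ≤ (b : ℝ) * V M i + a * V M (i + a + b) - ((a : ℝ) + b) * V M (i + a) := by
    rw [hVpart]; apply div_nonneg _ hXAB.le
    have : 0 ≤ A * B / 2 := by positivity
    linarith
  have hlV : M * X * (A * B / 2) ≤
      (2 * l) * ((b : ℝ) * V M i + a * V M (i + a + b) - ((a : ℝ) + b) * V M (i + a)) := by
    calc M * X * (A * B / 2)
        ≤ M * X * ((b : ℝ) * (A * B) + a - ((a : ℝ) + b) * B) := by gcongr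
      _ = lam M (i + (i + a + b)) *
          ((b : ℝ) * V M i + a * V M (i + a + b) - ((a : ℝ) + b) * V M (i + a)) := by
            rw [hVpart, hlam]; field_simp
      _ ≤ _ := by gcongr
  have hU : (b : ℝ) * U M i + a * U M (i + a + b) - ((a : ℝ) + b) * U M (i + a)
      ≤ a * (X * A * B) := by
    rw [hUi, hUx, hUj]
    have : (b : ℝ) * X ≤ ((a : ℝ) + b) * (X * A) := by
      have h1 : (b : ℝ) * X ≤ ((a : ℝ) + b) * X := by nlinarith
      have h2 : X ≤ X * A := by nlinarith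
      nlinarith
    linarith
  have hfin : 2 * ((a : ℝ) * (X * A * B)) < M * X * (A * B / 2) := by
    have h1 : (a : ℝ) < M / 4 := by linarith
    have h2 : 0 < X * (A * B) := by positivity
    have h3 := mul_lt_mul_of_pos_right h1 h2
    calc 2 * ((a : ℝ) * (X * A * B)) = 2 * (a * (X * (A * B))) := by ring
      _ < 2 * (M / 4 * (X * (A * B))) := by linarith
      _ = M * X * (A * B / 2) := by ring
  have hfin2 : (b : ℝ) * U M i + a * U M (i + a + b) - ((a : ℝ) + b) * U M (i + a) <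
      l * ((b : ℝ) * V M i + a * V M (i + a + b) - ((a : ℝ) + b) * V M (i + a)) := by
    linarith
  unfold g
  linarith

/-- Below the threshold the chord over `(i, i + a + b)` lies above the graph of `g`. -/
lemma chord_gt {M l : ℝ} {i a b : ℕ} (ha : 1 ≤ a) (hb : 1 ≤ b)
    (hM : 16 * ((a : ℝ) + b) ≤ M) (hl : l * M ^ 2 ≤ 4 * lam M (i + (i + a + b))) :
    ((a : ℝ) + b) * g M l (i + a) < (b : ℝ) * g M l i + a * g M l (i + a + b) := by
  have haR : (1 : ℝ) ≤ a := by exact_mod_cast ha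
  have hbR : (1 : ℝ) ≤ b := by exact_mod_cast hb
  have hM1 : 1 ≤ M := by linarith
  have hM0 : 0 < M := by linarith
  have k1 := key_pow (M := M) (a := b) (b := a) hb (by linarith) hM1
  have k2 := key_pow (M := M) (a := a) (b := b) ha (by linarith) hM1
  set X := M ^ (2 * i) with hX
  have hX0 : 0 < X := by positivity
  set A := M ^ (2 * a) with hA
  have hA1 : 1 ≤ A := one_le_pow₀ hM1
  set B := M ^ (2 * b) with hB
  have hB1 : 1 ≤ B := one_le_pow₀ hM1
  have hUi : U M i = X := rfl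
  have hUx : U M (i + a) = X * A := by unfold U; rw [hX, hA, ← pow_add]; congr 1; ring
  have hUj : U M (i + a + b) = X * A * B := by
    unfold U; rw [hX, hA, hB, ← pow_add, ← pow_add]; congr 1; ring
  have hVi : V M i = X⁻¹ := rfl
  have hVx : V M (i + a) = (X * A)⁻¹ := by rw [← hUx]; rfl
  have hVj : V M (i + a + b) = (X * A * B)⁻¹ := by rw [← hUj]; rfl
  have hAB : M ^ (2 * (b + a)) = A * B := by rw [hA, hB, ← pow_add]; congr 1; ring
  have hAB' : M ^ (2 * (a + b)) = A * B := by rw [hA, hB, ← pow_add]; congr 1; ring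
  rw [hAB] at k1
  rw [hAB'] at k2
  have hlam : lam M (i + (i + a + b)) = M * (X * X * A * B) := by
    unfold lam; rw [hX, hA, hB, ← pow_add, ← pow_add, ← pow_add, ← pow_succ']; congr 1; ring
  have hVpart : (b : ℝ) * V M i + a * V M (i + a + b) - ((a : ℝ) + b) * V M (i + a) =
      ((b : ℝ) * (A * B) + a - ((a : ℝ) + b) * B) / (X * A * B) := by
    rw [hVi, hVx, hVj]; field_simp
  have hXAB : 0 < X * A * B := by positivity
  have hnum0 : 0 ≤ (b : ℝ) * (A * B) + a - ((a : ℝ) + b) * B := by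
    have : 0 < A * B := by positivity
    nlinarith
  have hnum : (b : ℝ) * (A * B) + a - ((a : ℝ) + b) * B ≤ b * (A * B) := by nlinarith
  have hl' : l ≤ 4 * (X * X * A * B) / M := by
    rw [le_div_iff₀ hM0]
    have : l * M * M ≤ 4 * (X * X * A * B) * M := by rw [hlam] at hl; nlinarith
    exact le_of_mul_le_mul_right this hM0
  have hlV : l * ((b : ℝ) * V M i + a * V M (i + a + b) - ((a : ℝ) + b) * V M (i + a)) ≤
      4 * X * (b * (A * B)) / M := by
    calc l * ((b : ℝ) * V M i + a * V M (i + a + b) - ((a : ℝ) + b) * V M (i + a))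
        ≤ (4 * (X * X * A * B) / M) *
          ((b : ℝ) * V M i + a * V M (i + a + b) - ((a : ℝ) + b) * V M (i + a)) := by
            apply mul_le_mul_of_nonneg_right hl'
            rw [hVpart]; exact div_nonneg hnum0 hXAB.le
      _ = 4 * X * ((b : ℝ) * (A * B) + a - ((a : ℝ) + b) * B) / M := by
            rw [hVpart]; field_simp
      _ ≤ _ := by gcongr
  have hU : X * (A * B / 2) ≤
      (b : ℝ) * U M i + a * U M (i + a + b) - ((a : ℝ) + b) * U M (i + a) := by
    rw [hUi, hUx, hUj]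
    have h1 : ((a : ℝ) + b) * A ≤ A * B / 2 := by linarith
    have h2 : X * (((a : ℝ) + b) * A) ≤ X * (A * B / 2) := by gcongr
    have h3 : X * A * B ≤ (a : ℝ) * (X * A * B) := by nlinarith
    have h4 : 0 ≤ (b : ℝ) * X := by positivity
    have h5 : X * (A * B / 2) = X * A * B / 2 := by ring
    have h6 : X * (((a : ℝ) + b) * A) = ((a : ℝ) + b) * (X * A) := by ring
    linarith
  have hfin : 4 * X * (b * (A * B)) / M < X * (A * B / 2) := by
    rw [div_lt_iff₀ hM0]
    have h1 : 8 * (b : ℝ) < M := by linarith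
    have h2 : 0 < X * (A * B) := by positivity
    have h3 := mul_lt_mul_of_pos_right h1 h2
    calc 4 * X * (b * (A * B)) = (8 * (b : ℝ) * (X * (A * B))) / 2 := by ring
      _ < (M * (X * (A * B))) / 2 := by linarith
      _ = X * (A * B / 2) * M := by ring
  have hfin2 : l * ((b : ℝ) * V M i + a * V M (i + a + b) - ((a : ℝ) + b) * V M (i + a)) <
      (b : ℝ) * U M i + a * U M (i + a + b) - ((a : ℝ) + b) * U M (i + a) := by
    linarith
  unfold g
  linarith

lemma chord_lt' {M l : ℝ} {i x j : ℕ} (h1 : i < x) (h2 : x < j) (hM : 16 * (j : ℝ) ≤ M)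
    (hl : lam M (i + j) ≤ 2 * l) :
    ((j : ℝ) - x) * g M l i + (x - i) * g M l j < (j - i) * g M l x := by
  obtain ⟨a, rfl⟩ := Nat.exists_eq_add_of_lt h1
  obtain ⟨b, rfl⟩ := Nat.exists_eq_add_of_lt h2
  have h3 := chord_lt (M := M) (l := l) (i := i) (a := a + 1) (b := b + 1) (by omega) (by omega)
    (by push_cast at hM ⊢; have := (Nat.cast_nonneg (α := ℝ) i); linarith)
    (by convert hl using 2; omega)
  have e1 : i + (a + 1) = i + a + 1 := by ring
  have e2 : i + (a + 1) + (b + 1) = i + a + 1 + b + 1 := by ring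
  rw [e2, e1] at h3
  push_cast at h3 ⊢
  linarith

lemma chord_gt' {M l : ℝ} {i x j : ℕ} (h1 : i < x) (h2 : x < j) (hM : 16 * (j : ℝ) ≤ M)
    (hl : l * M ^ 2 ≤ 4 * lam M (i + j)) :
    ((j : ℝ) - i) * g M l x < ((j : ℝ) - x) * g M l i + (x - i) * g M l j := by
  obtain ⟨a, rfl⟩ := Nat.exists_eq_add_of_lt h1
  obtain ⟨b, rfl⟩ := Nat.exists_eq_add_of_lt h2
  have h3 := chord_gt (M := M) (l := l) (i := i) (a := a + 1) (b := b + 1) (by omega) (by omega)
    (by push_cast at hM ⊢; have := (Nat.cast_nonneg (α := ℝ) i); linarith)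
    (by
      have e3 : i + (i + (a + 1) + (b + 1)) = i + (i + a + 1 + b + 1) := by ring
      rw [e3]; exact hl)
  have e1 : i + (a + 1) = i + a + 1 := by ring
  have e2 : i + (a + 1) + (b + 1) = i + a + 1 + b + 1 := by ring
  rw [e2, e1] at h3
  push_cast at h3 ⊢
  linarith

lemma lam_le {M : ℝ} (hM : 1 ≤ M) {s t : ℕ} (h : s < t) : lam M s * M ^ 2 ≤ lam M t := by
  have h1 : lam M s * M ^ 2 = M ^ (2 * (s + 1) + 1) := by unfold lam; rw [← pow_add]; congr 1
  rw [h1]
  unfold lam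
  exact pow_le_pow_right₀ hM (by omega)

end Pool.Agent.H42K
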