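import Mathlib

/-! Almost disjoint triangles (MP_a19305_co): configurations in homogeneous coordinates. -/

set_option autoImplicit false

namespace Pool.Agent.H42K

/-- a vector of `ℝ⁴` (a point of space in homogeneous coordinates, or a linear form) -/
structure Pt where
  x : ℝ
  y : ℝ
  w : ℝ
  h : ℝ

/-- value of the linear form `f` at `p` -/
def ap (f p : Pt) : ℝ := f.x * p.x + f.y * p.y + f.w * p.w + f.h * p.h

/-- a linear form that is positive on `S \ T`, negative on `T \ S` and zero on `S ∩ T` -/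
def Sep (P : ℕ → Pt) (S T : Finset ℕ) : Prop :=
  ∃ f : Pt, (∀ r ∈ S, r ∉ T → 0 < ap f (P r)) ∧ (∀ r ∈ T, r ∉ S → ap f (P r) < 0) ∧
    ∀ r ∈ S, r ∈ T → ap f (P r) = 0

/-- the point `k` is visible from the direction `-w` in front of the triangle `T` -/
def Vis (P : ℕ → Pt) (k : ℕ) (T : Finset ℕ) : Prop :=
  ∃ f : Pt, 0 < f.w ∧ ap f (P k) = 0 ∧ ∀ t ∈ T, t ≠ k → 0 < ap f (P t)

/-- a configuration of `n` points with the family `F` of triangles -/
structure Cfg (M : ℝ) (n : ℕ) (P : ℕ → Pt) (F : Finset (Finset ℕ)) : Prop where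
  sub : ∀ T ∈ F, T ⊆ Finset.range n
  card : ∀ T ∈ F, T.card = 3
  inter : ∀ S ∈ F, ∀ T ∈ F, S ≠ T → (S ∩ T).card ≤ 1
  sep : ∀ S ∈ F, ∀ T ∈ F, S ≠ T → Sep P S T
  vis : ∀ k < n, ∀ T ∈ F, Vis P k T
  pos : ∀ k < n, 0 < (P k).h
  lo : ∀ k < n, M ^ (2 * k) * (P k).h < 2 * (P k).y
  hi : ∀ k < n, (P k).y < 2 * M ^ (2 * k) * (P k).h

/-- number of the pairs `i < j < m` with `i + j ≤ v` -/
def cnt (m v : ℕ) : ℕ :=
  ((Finset.range m ×ˢ Finset.range m).filter (fun p => p.1 < p.2 ∧ p.1 + p.2 ≤ v)).card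

/-- the recursion step: `m` new points in front of a configuration of `v` points -/
def StepK : Prop := ∀ (M : ℝ) (m v : ℕ) (P : ℕ → Pt) (F : Finset (Finset ℕ)),
  2 ≤ m → 16 * ((m : ℝ) + v + 1) ≤ M → Cfg M v P F →
  ∃ (P' : ℕ → Pt) (F' : Finset (Finset ℕ)), Cfg M (m + v) P' F' ∧ F.card + cnt m v ≤ F'.card

end Pool.Agent.H42K
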