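import Mathlib

/-! Lines that separate two pairs of points of a plane. -/

set_option autoImplicit false

namespace Pool.Agent.H42K

lemma eps2 {p q : ℝ} (c d : ℝ) (hp : 0 < p) (hq : 0 < q) :
    ∃ ε : ℝ, 0 < ε ∧ ε * c < p ∧ ε * d < q := by
  have hc : 0 < |c| + 1 := by positivity
  have hd : 0 < |d| + 1 := by positivity
  refine ⟨min (p / (|c| + 1)) (q / (|d| + 1)), lt_min (div_pos hp hc) (div_pos hq hd), ?_, ?_⟩
  · have h0 : 0 < min (p / (|c| + 1)) (q / (|d| + 1)) := lt_min (div_pos hp hc) (div_pos hq hd)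
    have h1 : min (p / (|c| + 1)) (q / (|d| + 1)) * (|c| + 1) ≤ p := by
      rw [← le_div_iff₀ hc]; exact min_le_left _ _
    have h2 := le_abs_self c
    nlinarith
  · have h0 : 0 < min (p / (|c| + 1)) (q / (|d| + 1)) := lt_min (div_pos hp hc) (div_pos hq hd)
    have h1 : min (p / (|c| + 1)) (q / (|d| + 1)) * (|d| + 1) ≤ q := by
      rw [← le_div_iff₀ hd]; exact min_le_right _ _
    have h2 := le_abs_self d
    nlinarith

lemma caseA {I J K L gi gj gk gl : ℝ} (h1 : I < K) (h2 : K < J) (h3 : J < L)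
    (e1 : (J - K) * gi + (K - I) * gj < (J - I) * gk)
    (e2 : (L - K) * gj < (L - J) * gk + (J - K) * gl) :
    ∃ α γ : ℝ, gi < α * I + γ ∧ gj < α * J + γ ∧ α * K + γ < gk ∧ α * L + γ < gl := by
  have hJK : 0 < J - K := by linarith
  set σ := (gj - gk) / (J - K) with hσ
  have hs : σ * (J - K) = gj - gk := by rw [hσ]; field_simp
  have p1 : 0 < gk - σ * (K - I) - gi := by
    have h : 0 < (J - K) * (gk - σ * (K - I) - gi) := by
      have : (J - K) * (gk - σ * (K - I) - gi) = (J - K) * gk - (σ * (J - K)) * (K - I) -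
        (J - K) * gi := by ring
      rw [this, hs]; nlinarith
    exact (mul_pos_iff_of_pos_left hJK).1 h
  have p2 : 0 < gl - gj - σ * (L - J) := by
    have h : 0 < (J - K) * (gl - gj - σ * (L - J)) := by
      have : (J - K) * (gl - gj - σ * (L - J)) = (J - K) * gl - (J - K) * gj -
        (σ * (J - K)) * (L - J) := by ring
      rw [this, hs]; nlinarith
    exact (mul_pos_iff_of_pos_left hJK).1 h
  obtain ⟨ε, he, q1, q2⟩ := eps2 (K + J - 2 * I) (2 * L - K - J) p1 p2
  refine ⟨σ + 2 * ε, gk - σ * K - ε * (K + J), ?_, ?_, ?_, ?_⟩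
  · nlinarith
  · nlinarith
  · nlinarith
  · nlinarith


/-- mirror image of `caseA` -/
lemma caseB {I J K L gi gj gk gl : ℝ} (h1 : K < I) (h2 : I < L) (h3 : L < J)
    (e1 : (J - L) * gi + (L - I) * gj < (J - I) * gl)
    (e2 : (L - K) * gi < (L - I) * gk + (I - K) * gl) :
    ∃ α γ : ℝ, gi < α * I + γ ∧ gj < α * J + γ ∧ α * K + γ < gk ∧ α * L + γ < gl := by
  obtain ⟨α, γ, q1, q2, q3, q4⟩ := caseA (I := -J) (J := -I) (K := -L) (L := -K) (gi := gj)
    (gj := gi) (gk := gl) (gl := gk) (by linarith) (by linarith) (by linarith)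
    (by nlinarith) (by nlinarith)
  exact ⟨-α, γ, by linarith, by linarith, by linarith, by linarith⟩

lemma caseC {I J K L gi gj gk gl : ℝ} (hIJ : I < J)
    (e1 : (J - K) * gi + (K - I) * gj < (J - I) * gk)
    (e2 : (J - L) * gi + (L - I) * gj < (J - I) * gl) :
    ∃ α γ : ℝ, gi < α * I + γ ∧ gj < α * J + γ ∧ α * K + γ < gk ∧ α * L + γ < gl := by
  have hd : 0 < J - I := by linarith
  set σ := (gj - gi) / (J - I) with hσ
  have hs : σ * (J - I) = gj - gi := by rw [hσ]; field_simp
  have p1 : 0 < gk - gi - σ * (K - I) := by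
    have h : 0 < (J - I) * (gk - gi - σ * (K - I)) := by
      have : (J - I) * (gk - gi - σ * (K - I)) = (J - I) * gk - (J - I) * gi -
        (σ * (J - I)) * (K - I) := by ring
      rw [this, hs]; nlinarith
    exact (mul_pos_iff_of_pos_left hd).1 h
  have p2 : 0 < gl - gi - σ * (L - I) := by
    have h : 0 < (J - I) * (gl - gi - σ * (L - I)) := by
      have : (J - I) * (gl - gi - σ * (L - I)) = (J - I) * gl - (J - I) * gi -
        (σ * (J - I)) * (L - I) := by ring
      rw [this, hs]; nlinarith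
    exact (mul_pos_iff_of_pos_left hd).1 h
  obtain ⟨ε, he, q1, q2⟩ := eps2 1 1 p1 p2
  exact ⟨σ, gi - σ * I + ε, by linarith, by linarith, by linarith, by linarith⟩

lemma caseD {I J K L gi gj gk gl : ℝ} (hKL : K < L)
    (e1 : (L - K) * gi < (L - I) * gk + (I - K) * gl)
    (e2 : (L - K) * gj < (L - J) * gk + (J - K) * gl) :
    ∃ α γ : ℝ, gi < α * I + γ ∧ gj < α * J + γ ∧ α * K + γ < gk ∧ α * L + γ < gl := by
  obtain ⟨α, γ, q1, q2, q3, q4⟩ := caseC (I := K) (J := L) (K := I) (L := J) (gi := -gk)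
    (gj := -gl) (gk := -gi) (gl := -gj) hKL (by linarith) (by linarith)
  exact ⟨-α, -γ, by linarith, by linarith, by linarith, by linarith⟩

/-- a steep line -/
lemma caseE {I J K L gi gj gk gl : ℝ} (h1 : I < J) (h2 : J + 1 ≤ K) (h3 : K < L) :
    ∃ α γ : ℝ, gi < α * I + γ ∧ gj < α * J + γ ∧ α * K + γ < gk ∧ α * L + γ < gl := by
  set k := 2 * (|gi| + |gj| + |gk| + |gl| + 1) with hk
  have a1 := abs_nonneg gi
  have a2 := abs_nonneg gj
  have a3 := abs_nonneg gk
  have a4 := abs_nonneg gl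
  have b1 := le_abs_self gi
  have b2 := le_abs_self gj
  have b3 := neg_abs_le gk
  have b4 := neg_abs_le gl
  have hk0 : 0 < k := by rw [hk]; positivity
  refine ⟨-k, k * ((J + K) / 2), ?_, ?_, ?_, ?_⟩
  · have : k * (1 / 2) ≤ k * ((J + K) / 2 - I) := by
      apply mul_le_mul_of_nonneg_left _ hk0.le; linarith
    nlinarith
  · have : k * (1 / 2) ≤ k * ((J + K) / 2 - J) := by
      apply mul_le_mul_of_nonneg_left _ hk0.le; linarith
    nlinarith
  · have : k * (1 / 2) ≤ k * (K - (J + K) / 2) := by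
      apply mul_le_mul_of_nonneg_left _ hk0.le; linarith
    nlinarith
  · have : k * (1 / 2) ≤ k * (L - (J + K) / 2) := by
      apply mul_le_mul_of_nonneg_left _ hk0.le; linarith
    nlinarith

lemma caseE' {I J K L gi gj gk gl : ℝ} (h1 : K < L) (h2 : L + 1 ≤ I) (h3 : I < J) :
    ∃ α γ : ℝ, gi < α * I + γ ∧ gj < α * J + γ ∧ α * K + γ < gk ∧ α * L + γ < gl := by
  obtain ⟨α, γ, q1, q2, q3, q4⟩ := caseE (I := -J) (J := -I) (K := -L) (L := -K) (gi := gj)
    (gj := gi) (gk := gl) (gl := gk) (by linarith) (by linarith) (by linarith)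
  exact ⟨-α, γ, by linarith, by linarith, by linarith, by linarith⟩

/-- pivot at the common left end -/
lemma pivL {I J L gi gj gl : ℝ} (h1 : I < J) (h2 : I < L)
    (e : (gj - gi) * (L - I) < (gl - gi) * (J - I)) :
    ∃ α γ : ℝ, gi = α * I + γ ∧ gj < α * J + γ ∧ α * L + γ < gl := by
  have d1 : 0 < J - I := by linarith
  have d2 : 0 < L - I := by linarith
  have hlt : (gj - gi) / (J - I) < (gl - gi) / (L - I) := by
    rw [div_lt_div_iff₀ d1 d2]; exact e
  obtain ⟨σ, s1, s2⟩ := exists_between hlt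
  rw [div_lt_iff₀ d1] at s1
  rw [lt_div_iff₀ d2] at s2
  exact ⟨σ, gi - σ * I, by ring, by nlinarith, by nlinarith⟩

/-- pivot at the common right end -/
lemma pivR {I J K gi gj gk : ℝ} (h1 : I < J) (h2 : K < J)
    (e : (gj - gk) * (J - I) < (gj - gi) * (J - K)) :
    ∃ α γ : ℝ, gj = α * J + γ ∧ gi < α * I + γ ∧ α * K + γ < gk := by
  obtain ⟨α, γ, q1, q2, q3⟩ := pivL (I := -J) (J := -I) (L := -K) (gi := gj) (gj := gi)
    (gl := gk) (by linarith) (by linarith) (by nlinarith)
  exact ⟨-α, γ, by linarith, by linarith, by linarith⟩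

lemma pivM {I J L gi gj gl : ℝ} (h1 : I < J) (h2 : J < L) :
    ∃ α γ : ℝ, gj = α * J + γ ∧ gi < α * I + γ ∧ α * L + γ < gl := by
  have d1 : 0 < J - I := by linarith
  have d2 : 0 < L - J := by linarith
  obtain ⟨σ, hσ⟩ := exists_lt (min ((gj - gi) / (J - I)) ((gl - gj) / (L - J)))
  have s1 := lt_of_lt_of_le hσ (min_le_left _ _)
  have s2 := lt_of_lt_of_le hσ (min_le_right _ _)
  rw [lt_div_iff₀ d1] at s1
  rw [lt_div_iff₀ d2] at s2
  exact ⟨σ, gj - σ * J, by ring, by nlinarith, by nlinarith⟩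

lemma pivM' {I J K gi gj gk : ℝ} (h1 : K < I) (h2 : I < J) :
    ∃ α γ : ℝ, gi = α * I + γ ∧ gj < α * J + γ ∧ α * K + γ < gk := by
  obtain ⟨α, γ, q1, q2, q3⟩ := pivM (I := -J) (J := -I) (L := -K) (gi := gj) (gj := gi)
    (gl := gk) (by linarith) (by linarith)
  exact ⟨-α, γ, by linarith, by linarith, by linarith⟩

/-- **The separating line.** -/
theorem line (g : ℕ → ℝ) {i j k l : ℕ} (hij : i < j) (hkl : k < l) (hne : ¬ (i = k ∧ j = l))
    (h1 : ∀ x : ℕ, i < x → x < j → ((j : ℝ) - x) * g i + (x - i) * g j < (j - i) * g x)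
    (h2 : ∀ x : ℕ, k < x → x < l → ((l : ℝ) - k) * g x < ((l : ℝ) - x) * g k + (x - k) * g l) :
    ∃ α γ : ℝ, (∀ r, (r = i ∨ r = j) → ¬ (r = k ∨ r = l) → g r < α * r + γ) ∧
      (∀ r, (r = k ∨ r = l) → ¬ (r = i ∨ r = j) → α * r + γ < g r) ∧
      (∀ r, (r = i ∨ r = j) → (r = k ∨ r = l) → g r = α * r + γ) := by
  have hIJ : (i : ℝ) < j := by exact_mod_cast hij
  have hKL : (k : ℝ) < l := by exact_mod_cast hkl
  -- all four different
  have four : (∃ α γ : ℝ, g i < α * i + γ ∧ g j < α * j + γ ∧ α * k + γ < g k ∧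
      α * l + γ < g l) → i ≠ k → i ≠ l → j ≠ k → j ≠ l →
      ∃ α γ : ℝ, (∀ r, (r = i ∨ r = j) → ¬ (r = k ∨ r = l) → g r < α * r + γ) ∧
      (∀ r, (r = k ∨ r = l) → ¬ (r = i ∨ r = j) → α * r + γ < g r) ∧
      (∀ r, (r = i ∨ r = j) → (r = k ∨ r = l) → g r = α * r + γ) := by
    rintro ⟨α, γ, q1, q2, q3, q4⟩ n1 n2 n3 n4
    refine ⟨α, γ, ?_, ?_, ?_⟩
    · rintro r (rfl | rfl) _
      · exact q1
      · exact q2
    · rintro r (rfl | rfl) _
      · exact q3
      · exact q4
    · rintro r (rfl | rfl) (h | h)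
      · exact absurd h n1
      · exact absurd h n2
      · exact absurd h n3
      · exact absurd h n4
  rcases Nat.lt_trichotomy j k with hjk | hjk | hjk
  · have : (j : ℝ) + 1 ≤ k := by exact_mod_cast hjk
    exact four (caseE hIJ this hKL) (by omega) (by omega) (by omega) (by omega)
  · subst hjk
    obtain ⟨α, γ, q1, q2, q3⟩ := pivM (gi := g i) (gj := g j) (gl := g l) hIJ hKL
    refine ⟨α, γ, ?_, ?_, ?_⟩
    · rintro r (rfl | rfl) hr
      · exact q2
      · exact absurd (Or.inl rfl) hr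
    · rintro r (rfl | rfl) hr
      · exact absurd (Or.inr rfl) hr
      · exact q3
    · rintro r (rfl | rfl) (h | h)
      · omega
      · omega
      · exact q1
      · omega
  rcases Nat.lt_trichotomy l i with hli | hli | hli
  · have : (l : ℝ) + 1 ≤ i := by exact_mod_cast hli
    exact four (caseE' hKL this hIJ) (by omega) (by omega) (by omega) (by omega)
  · subst hli
    obtain ⟨α, γ, q1, q2, q3⟩ := pivM' (gi := g l) (gj := g j) (gk := g k) hKL hIJ
    refine ⟨α, γ, ?_, ?_, ?_⟩
    · rintro r (rfl | rfl) hr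
      · exact absurd (Or.inr rfl) hr
      · exact q2
    · rintro r (rfl | rfl) hr
      · exact q3
      · exact absurd (Or.inl rfl) hr
    · rintro r (rfl | rfl) (h | h)
      · omega
      · exact q1
      · omega
      · omega
  have hJK : (k : ℝ) < j := by exact_mod_cast hjk
  have hIL : (i : ℝ) < l := by exact_mod_cast hli
  rcases Nat.lt_trichotomy i k with hik | hik | hik
  · have hIK : (i : ℝ) < k := by exact_mod_cast hik
    have f1 := h1 k hik hjk
    rcases Nat.lt_trichotomy j l with hjl | hjl | hjl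
    · have hJL : (j : ℝ) < l := by exact_mod_cast hjl
      exact four (caseA hIK hJK hJL f1 (h2 j hjk hjl)) (by omega) (by omega) (by omega)
        (by omega)
    · subst hjl
      obtain ⟨α, γ, q1, q2, q3⟩ := pivR (gi := g i) (gj := g j) (gk := g k) hIJ hKL
        (by nlinarith)
      refine ⟨α, γ, ?_, ?_, ?_⟩
      · rintro r (rfl | rfl) hr
        · exact q2
        · exact absurd (Or.inr rfl) hr
      · rintro r (rfl | rfl) hr
        · exact q3
        · exact absurd (Or.inr rfl) hr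
      · rintro r (rfl | rfl) (h | h)
        · omega
        · omega
        · omega
        · exact q1
    · exact four (caseC hIJ f1 (h1 l (by omega) hjl)) (by omega) (by omega) (by omega)
        (by omega)
  · subst hik
    have hjl : j ≠ l := fun h => hne ⟨rfl, h⟩
    have hpiv : ∃ α γ : ℝ, g i = α * i + γ ∧ g j < α * j + γ ∧ α * l + γ < g l := by
      rcases Nat.lt_or_gt_of_ne hjl with h | h
      · exact pivL hIJ hIL (by have := h2 j hij h; nlinarith)
      · exact pivL hIJ hIL (by have := h1 l hli h; nlinarith)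
    obtain ⟨α, γ, q1, q2, q3⟩ := hpiv
    refine ⟨α, γ, ?_, ?_, ?_⟩
    · rintro r (rfl | rfl) hr
      · exact absurd (Or.inl rfl) hr
      · exact q2
    · rintro r (rfl | rfl) hr
      · exact absurd (Or.inl rfl) hr
      · exact q3
    · rintro r (rfl | rfl) (h | h)
      · exact q1
      · omega
      · omega
      · omega
  · have hKI : (k : ℝ) < i := by exact_mod_cast hik
    have f2 := h2 i hik hli
    rcases Nat.lt_trichotomy j l with hjl | hjl | hjl
    · exact four (caseD hKL f2 (h2 j (by omega) hjl)) (by omega) (by omega) (by omega)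
        (by omega)
    · subst hjl
      obtain ⟨α, γ, q1, q2, q3⟩ := pivR (gi := g i) (gj := g j) (gk := g k) hIJ hKL
        (by nlinarith)
      refine ⟨α, γ, ?_, ?_, ?_⟩
      · rintro r (rfl | rfl) hr
        · exact q2
        · exact absurd (Or.inr rfl) hr
      · rintro r (rfl | rfl) hr
        · exact q3
        · exact absurd (Or.inr rfl) hr
      · rintro r (rfl | rfl) (h | h)
        · omega
        · omega
        · omega
        · exact q1
    · have hLJ : (l : ℝ) < j := by exact_mod_cast hjl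
      exact four (caseB hKI hIL hLJ (h1 l hli hjl) f2) (by omega) (by omega) (by omega)
        (by omega)

end Pool.Agent.H42K
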