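import Pool.Agent.H42K.Def
import Pool.Agent.H42K.Chord
import Pool.Agent.H42K.Line

/-! The new points, slivers, and iterated limits. -/

set_option autoImplicit false

namespace Pool.Agent.H42K

open Filter Topology

/-- iterated smallness of the two parameters -/
def E (Φ : ℝ → ℝ → Prop) : Prop :=
  ∀ᶠ ξ in 𝓝[>] (0 : ℝ), ∀ᶠ ω in 𝓝[>] (0 : ℝ), Φ ξ ω

lemma E.mono {Φ Ψ : ℝ → ℝ → Prop} (h : E Φ) (hi : ∀ ξ ω, 0 < ξ → 0 < ω → Φ ξ ω → Ψ ξ ω) :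
    E Ψ := by
  unfold E at *
  filter_upwards [h, self_mem_nhdsWithin] with ξ h1 h2
  filter_upwards [h1, self_mem_nhdsWithin] with ω h3 h4
  exact hi ξ ω h2 h4 h3

lemma E.and {Φ Ψ : ℝ → ℝ → Prop} (h : E Φ) (h' : E Ψ) : E (fun ξ ω => Φ ξ ω ∧ Ψ ξ ω) := by
  unfold E at *
  filter_upwards [h, h'] with ξ h1 h2
  filter_upwards [h1, h2] with ω h3 h4
  exact ⟨h3, h4⟩

lemma E.all {ι : Type*} (s : Finset ι) {Φ : ι → ℝ → ℝ → Prop} (h : ∀ i ∈ s, E (Φ i)) :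
    E (fun ξ ω => ∀ i ∈ s, Φ i ξ ω) := by
  unfold E at *
  rw [← Filter.eventually_all_finset] at h
  filter_upwards [h] with ξ h1
  rw [Filter.eventually_all_finset]
  exact h1

lemma E.lt (n : ℕ) {Φ : ℕ → ℝ → ℝ → Prop} (h : ∀ i < n, E (Φ i)) :
    E (fun ξ ω => ∀ i < n, Φ i ξ ω) := by
  have := E.all (Finset.range n) (Φ := Φ) (fun i hi => h i (Finset.mem_range.1 hi))
  exact this.mono fun ξ ω _ _ h i hi => h i (Finset.mem_range.2 hi)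

lemma E.const {p : Prop} (h : p) : E (fun _ _ => p) := by
  unfold E; simp [h]

lemma E.exists {Φ : ℝ → ℝ → Prop} (h : E Φ) : ∃ ξ ω : ℝ, 0 < ξ ∧ 0 < ω ∧ Φ ξ ω := by
  have h1 := h.mono (Ψ := fun ξ ω => 0 < ξ ∧ 0 < ω ∧ Φ ξ ω) fun ξ ω a b c => ⟨a, b, c⟩
  obtain ⟨ξ, h2⟩ := Filter.Eventually.exists h1
  obtain ⟨ω, h3⟩ := Filter.Eventually.exists h2
  exact ⟨ξ, ω, h3⟩

lemma E.cont {φ : ℝ × ℝ → ℝ} (hc : Continuous φ) (h0 : 0 < φ (0, 0)) :
    E (fun ξ ω => 0 < φ (ξ, ω)) := by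
  have h1 : ∀ᶠ p in 𝓝 ((0 : ℝ), (0 : ℝ)), 0 < φ p :=
    (hc.tendsto (0, 0)).eventually (lt_mem_nhds h0)
  rw [nhds_prod_eq] at h1
  have h2 := h1.curry
  unfold E
  refine (h2.filter_mono nhdsWithin_le_nhds).mono fun ξ h3 => ?_
  exact h3.filter_mono nhdsWithin_le_nhds

/-- for fixed `ξ` the term `- w / ω` wins -/
lemma E.neg {a b w : ℝ} (hw : 0 < w) : E (fun ξ ω => a / ξ + b - w / ω < 0) := by
  unfold E
  filter_upwards [self_mem_nhdsWithin] with ξ hξ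
  have h1 : ∀ᶠ ω in 𝓝 (0 : ℝ), ω * (a / ξ + b) < w := by
    have hc : Continuous fun ω : ℝ => ω * (a / ξ + b) := by fun_prop
    have := hc.tendsto 0
    simp only [zero_mul] at this
    exact this.eventually (gt_mem_nhds hw)
  filter_upwards [h1.filter_mono nhdsWithin_le_nhds, self_mem_nhdsWithin] with ω h2 h3
  have h3' : (0 : ℝ) < ω := h3
  have : a / ξ + b < w / ω := by rw [lt_div_iff₀ h3']; linarith
  linarith

/-- the new points -/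
noncomputable def newP (M τ ξ ω : ℝ) (m : ℕ) (P : ℕ → Pt) (r : ℕ) : Pt :=
  if r < m then ⟨(r : ℝ) + 1, U M r, V M r, 1 + τ * V M r⟩
  else ⟨ξ * (P (r - m)).x, M ^ 3 * (P (r - m)).y, (P (r - m)).h,
    τ * (P (r - m)).h - ω * (P (r - m)).w⟩

lemma newP_lo (M τ ξ ω : ℝ) {m : ℕ} (P : ℕ → Pt) {r : ℕ} (hr : r < m) :
    newP M τ ξ ω m P r = ⟨(r : ℝ) + 1, U M r, V M r, 1 + τ * V M r⟩ := by
  unfold newP; rw [if_pos hr]

lemma newP_hi (M τ ξ ω : ℝ) (m : ℕ) (P : ℕ → Pt) (k : ℕ) :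
    newP M τ ξ ω m P (m + k) = ⟨ξ * (P k).x, M ^ 3 * (P k).y, (P k).h,
      τ * (P k).h - ω * (P k).w⟩ := by
  unfold newP; rw [if_neg (by omega)]; simp

/-- the sliver of the pair `i, j` -/
def sl (m i j : ℕ) : Finset ℕ := {i, j, m + (i + j - 1)}

/-- shift of a triangle -/
def sh (m : ℕ) (T : Finset ℕ) : Finset ℕ := T.image (fun t => m + t)

lemma mem_sh {m : ℕ} {T : Finset ℕ} {r : ℕ} : r ∈ sh m T ↔ ∃ t ∈ T, m + t = r := by
  unfold sh; simp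

lemma mem_sh' {m : ℕ} {T : Finset ℕ} {t : ℕ} : m + t ∈ sh m T ↔ t ∈ T := by
  rw [mem_sh]
  constructor
  · rintro ⟨s, hs, h⟩
    have : s = t := by omega
    rwa [← this]
  · intro h; exact ⟨t, h, rfl⟩

lemma mem_sl {m i j r : ℕ} : r ∈ sl m i j ↔ r = i ∨ r = j ∨ r = m + (i + j - 1) := by
  unfold sl; simp

/-- transport of a linear form -/
noncomputable def tr (M τ ξ ω : ℝ) (f : Pt) : Pt :=
  ⟨f.x / ξ, f.y / M ^ 3, f.w * τ / ω + f.h, -(f.w / ω)⟩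

lemma ap_tr_hi {M τ ξ ω : ℝ} (hM : 0 < M) (hξ : 0 < ξ) (hω : 0 < ω) (f : Pt) (m : ℕ)
    (P : ℕ → Pt) (k : ℕ) : ap (tr M τ ξ ω f) (newP M τ ξ ω m P (m + k)) = ap f (P k) := by
  rw [newP_hi]
  unfold ap tr
  field_simp
  ring

lemma ap_tr_lo {M τ ξ ω : ℝ} (hω : 0 < ω) (f : Pt) {m : ℕ}
    (P : ℕ → Pt) {r : ℕ} (hr : r < m) : ap (tr M τ ξ ω f) (newP M τ ξ ω m P r) =
      (f.x * (r + 1)) / ξ + (f.y / M ^ 3 * U M r + f.h * V M r) - f.w / ω := by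
  rw [newP_lo _ _ _ _ _ hr]
  unfold ap tr
  simp only
  have h1 : f.w * τ / ω * V M r = f.w / ω * (τ * V M r) := by field_simp
  have h2 : f.x / ξ * ((r : ℝ) + 1) = f.x * (r + 1) / ξ := by ring
  rw [← h2]
  have : (f.w * τ / ω + f.h) * V M r = f.w / ω * (τ * V M r) + f.h * V M r := by
    rw [add_mul, h1]
  rw [this]
  ring

lemma Sep.symm {P : ℕ → Pt} {S T : Finset ℕ} (h : Sep P S T) : Sep P T S := by
  obtain ⟨f, h1, h2, h3⟩ := h
  have hn : ∀ p, ap ⟨-f.x, -f.y, -f.w, -f.h⟩ p = - ap f p := by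
    intro p; unfold ap; ring
  refine ⟨⟨-f.x, -f.y, -f.w, -f.h⟩, ?_, ?_, ?_⟩
  · intro r hr hr2; rw [hn]; have := h2 r hr hr2; linarith
  · intro r hr hr2; rw [hn]; have := h1 r hr hr2; linarith
  · intro r hr hr2; rw [hn, h3 r hr2 hr]; ring

/-- separation of two old triangles -/
lemma sep_old {M τ ξ ω : ℝ} (hM : 0 < M) (hξ : 0 < ξ) (hω : 0 < ω) {m : ℕ}
    {P : ℕ → Pt} {S T : Finset ℕ} (h : Sep P S T) :
    Sep (newP M τ ξ ω m P) (sh m S) (sh m T) := by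
  obtain ⟨f, h1, h2, h3⟩ := h
  refine ⟨tr M τ ξ ω f, ?_, ?_, ?_⟩
  · intro r hr hr2
    obtain ⟨t, ht, rfl⟩ := mem_sh.1 hr
    rw [ap_tr_hi hM hξ hω]
    exact h1 t ht (fun h => hr2 (mem_sh'.2 h))
  · intro r hr hr2
    obtain ⟨t, ht, rfl⟩ := mem_sh.1 hr
    rw [ap_tr_hi hM hξ hω]
    exact h2 t ht (fun h => hr2 (mem_sh'.2 h))
  · intro r hr hr2
    obtain ⟨t, ht, rfl⟩ := mem_sh.1 hr
    rw [ap_tr_hi hM hξ hω]
    exact h3 t ht (mem_sh'.1 hr2)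

/-- the form that separates `T` from everything below `k` -/
lemma exists_form {P : ℕ → Pt} {k : ℕ} {T : Finset ℕ} (hpos : ∀ t ∈ T, 0 < (P t).h)
    (hk : 0 < (P k).h) (h : Vis P k T) :
    ∃ f : Pt, 0 < f.w ∧ (∀ t ∈ T, t ≠ k → 0 < ap f (P t)) ∧ (k ∈ T → ap f (P k) = 0) ∧
      (k ∉ T → ap f (P k) < 0) := by
  obtain ⟨f, hw, h0, h1⟩ := h
  by_cases hkT : k ∈ T
  · exact ⟨f, hw, h1, fun _ => h0, fun h => absurd hkT h⟩
  · have hev : ∀ᶠ η in 𝓝[>] (0 : ℝ), ∀ t ∈ T, 0 < ap f (P t) - η * (P t).h := by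
      rw [Filter.eventually_all_finset]
      intro t ht
      have hc : Continuous fun η : ℝ => ap f (P t) - η * (P t).h := by fun_prop
      have h2 := hc.tendsto 0
      simp only [zero_mul, sub_zero] at h2
      exact (h2.eventually (lt_mem_nhds (h1 t ht (fun h => hkT (h ▸ ht))))).filter_mono
        nhdsWithin_le_nhds
    obtain ⟨η, hη, hη0⟩ := (hev.and self_mem_nhdsWithin).exists
    have hη0' : (0 : ℝ) < η := hη0
    have hn : ∀ p, ap ⟨f.x, f.y, f.w, f.h - η⟩ p = ap f p - η * p.h := by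
      intro p; unfold ap; ring
    refine ⟨⟨f.x, f.y, f.w, f.h - η⟩, hw, ?_, fun h => absurd h hkT, ?_⟩
    · intro t ht _
      rw [hn]; exact hη t ht
    · intro _
      rw [hn, h0]
      nlinarith

/-- an old triangle and a sliver -/
lemma sep_old_sl {M τ : ℝ} (hM : 0 < M) {m v : ℕ} {P : ℕ → Pt} {F : Finset (Finset ℕ)}
    (hC : Cfg M v P F) {T : Finset ℕ} (hT : T ∈ F) {i j : ℕ} (hij : i < j) (hj : j < m)
    (hv : i + j ≤ v) : E (fun ξ ω => Sep (newP M τ ξ ω m P) (sh m T) (sl m i j)) := by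
  set k := i + j - 1 with hk
  have hkv : k < v := by omega
  obtain ⟨f, hw, h1, h2, h3⟩ := exists_form (fun t ht => hC.pos t
    (Finset.mem_range.1 (hC.sub T hT ht))) (hC.pos k hkv) (hC.vis k hkv T hT)
  have e1 := E.neg (a := f.x * ((i : ℝ) + 1)) (b := f.y / M ^ 3 * U M i + f.h * V M i) hw
  have e2 := E.neg (a := f.x * ((j : ℝ) + 1)) (b := f.y / M ^ 3 * U M j + f.h * V M j) hw
  refine (e1.and e2).mono fun ξ ω hξ hω ⟨q1, q2⟩ => ⟨tr M τ ξ ω f, ?_, ?_, ?_⟩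
  · intro r hr hr2
    obtain ⟨t, ht, rfl⟩ := mem_sh.1 hr
    rw [ap_tr_hi hM hξ hω]
    refine h1 t ht fun h => hr2 ?_
    rw [mem_sl]; right; right; omega
  · intro r hr hr2
    rcases mem_sl.1 hr with rfl | rfl | hr3
    · rw [ap_tr_lo hω f P (by omega)]; exact q1
    · rw [ap_tr_lo hω f P hj]; exact q2
    · have : k ∉ T := by
        intro h
        apply hr2
        rw [hr3]
        exact mem_sh'.2 h
      rw [hr3, ap_tr_hi hM hξ hω]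
      exact h3 this
  · intro r hr hr2
    obtain ⟨t, ht, rfl⟩ := mem_sh.1 hr
    rw [ap_tr_hi hM hξ hω]
    have : t = k := by
      rcases mem_sl.1 hr2 with h | h | h <;> omega
    rw [this] at ht ⊢
    exact h2 ht

/-- old points see old triangles -/
lemma vis_old {M τ : ℝ} (hM : 0 < M) (hτ : 0 < τ) {m k : ℕ} {P : ℕ → Pt} {T : Finset ℕ}
    (h : Vis P k T) : E (fun ξ ω => Vis (newP M τ ξ ω m P) (m + k) (sh m T)) := by
  obtain ⟨f, hw, h0, h1⟩ := h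
  have e1 : E (fun _ ω => 0 < f.w * τ + ω * f.h) :=
    E.cont (φ := fun p => f.w * τ + p.2 * f.h) (by fun_prop) (by simp; positivity)
  refine e1.mono fun ξ ω hξ hω q => ⟨tr M τ ξ ω f, ?_, ?_, ?_⟩
  · have : (tr M τ ξ ω f).w = (f.w * τ + ω * f.h) / ω := by
      unfold tr; field_simp
    rw [this]; exact div_pos q hω
  · rw [ap_tr_hi hM hξ hω]; exact h0
  · intro r hr hr2
    obtain ⟨t, ht, rfl⟩ := mem_sh.1 hr
    rw [ap_tr_hi hM hξ hω]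
    exact h1 t ht (by omega)

end Pool.Agent.H42K
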